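import Pool.Agent.J4H67.MinDef.Search

/-!
The simple 2-(7,3,4) design consisting of the 28 triples of `Z/7` that are not lines of the Fano
plane has minimal defining sets of sizes 7, 8, 9, 10 and 13 exactly: its spectrum has holes at
11 and 12.
-/

namespace Pool.Agent.Results.MP_13ec72_co.FanoComplement

open Pool.Agent.J4H67.MinDef

/-- The 28 triples of `Z/7` that are not lines of the Fano plane form a simple 2-(7,3,4) design
whose minimal defining sets have exactly the sizes 7, 8, 9, 10 and 13. -/
theorem result : IsDesign 2 7 3 4 fanoComplement ∧
    Spec 2 7 3 4 fanoComplement = {7, 8, 9, 10, 13} :=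
  main

end Pool.Agent.Results.MP_13ec72_co.FanoComplement
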